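import Pool.Agent.MP_8ed1d4_al.AbsValue

set_option autoImplicit false

namespace Pool.Agent.Results.MP_8ed1d4_al.AbsValue

open Pool.Agent.MP_8ed1d4_al

/-- Herstein's conjecture when some nontrivial absolute value of the centre grows at most
exponentially in the commutator length (for example, is 1 on the central elements of the
commutator subgroup). -/
theorem result :
    ∀ (D : Type) [DivisionRing D],
      (∀ x y : D, x ≠ 0 → y ≠ 0 →
        ∃ n : ℕ, 0 < n ∧ (x * y * x⁻¹ * y⁻¹) ^ n ∈ Subring.center D) →
      ∀ (v : AbsoluteValue (Subring.center D) ℝ) (C : ℝ), v.IsNontrivial →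
        (∀ (L : List (Dˣ × Dˣ)) (f : Subring.center D),
          (f : D) = ((L.map fun p => p.1 * p.2 * p.1⁻¹ * p.2⁻¹).prod : Dˣ) →
          v f ≤ C ^ L.length) →
        ∀ a b : D, a * b = b * a := by
  intro D _ h v C hv hC
  refine (hyp_center h).comm_of_abs v hv (C := C) ?_
  rintro _ _ f ⟨L, rfl, rfl⟩ hf
  exact hC L f hf.symm

end Pool.Agent.Results.MP_8ed1d4_al.AbsValue
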