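import Pool.Agent.MP_8ed1d4_al.Cyclo

set_option autoImplicit false

namespace Pool.Agent.Results.MP_8ed1d4_al.Cyclo

open Pool.Agent.MP_8ed1d4_al Polynomial

/-- Under Herstein's hypothesis, a commutator whose period modulo the centre only involves primes
`l` for which `X ^ l - 1` splits over the centre into factors of degree at most two is trivial. -/
theorem result (F D : Type) [Field F] [DivisionRing D] [Algebra F D] [Algebra.IsCentral F D] :
      (∀ x y : D, x ≠ 0 → y ≠ 0 →
        ∃ n : ℕ, 0 < n ∧ (x * y * x⁻¹ * y⁻¹) ^ n ∈ Subring.center D) →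
      ∀ (a b : D) (n : ℕ), 0 < n →
        (∀ l : ℕ, l.Prime → l ∣ n → ∀ q : Polynomial F, Irreducible q →
          q ∣ X ^ l - 1 → q.natDegree ≤ 2) →
        (a * b * a⁻¹ * b⁻¹) ^ n ∈ Subring.center D → a * b = b * a := by
  intro h a b n hn hq hm
  have hc : ∀ x : D, x ∈ Subring.center D → ∃ f : F, algebraMap F D f = x := by
    intro x hx
    have : x ∈ Subalgebra.center F D := hx
    rw [Algebra.IsCentral.center_eq_bot] at this
    exact Algebra.mem_bot.1 this
  have H : Hyp F D := ⟨fun x hx => hc x (Subring.mem_center_iff.2 fun y => (hx y).symm),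
    fun x y hx hy => by
      obtain ⟨n, hn, hm⟩ := h x y hx hy
      obtain ⟨f, hf⟩ := hc _ hm
      exact ⟨n, hn, f, hf.symm⟩⟩
  exact H.comm_of_central (H.central_of_cyclo hn hq (hc _ hm))

end Pool.Agent.Results.MP_8ed1d4_al.Cyclo
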